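import Pool.Agent.Helper37.KD.DefsC

/-! KD Part I, piece S1 : the summation lemma -/

namespace KD.I.S1

open Finset KD

lemma tim_succ' (s : ℝ) (k : ℕ) : tim s (k + 1) = (2 : ℝ) ^ (2 * s) * tim s k := by
  unfold tim
  rw [← Real.rpow_add (by norm_num)]
  congr 1
  push_cast
  ring

lemma tim_pos' (s : ℝ) (k : ℕ) : 0 < tim s k := by
  unfold tim; positivity

lemma one_le_tim' {s : ℝ} (hs : 0 < s) (k : ℕ) : 1 ≤ tim s k := by
  unfold tim
  exact Real.one_le_rpow (by norm_num) (by positivity)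

lemma rho_gt {s : ℝ} (hs : 0 < s) : 1 < (2 : ℝ) ^ (2 * s) :=
  Real.one_lt_rpow (by norm_num) (by positivity)

lemma rho_le {s : ℝ} (hs1 : s < 1) : (2 : ℝ) ^ (2 * s) ≤ 4 := by
  calc (2 : ℝ) ^ (2 * s) ≤ (2 : ℝ) ^ (2 : ℝ) :=
        Real.rpow_le_rpow_of_exponent_le (by norm_num) (by linarith)
    _ = 4 := by norm_num

lemma tim_mono' {s : ℝ} (hs : 0 < s) (k : ℕ) : tim s k ≤ tim s (k + 1) := by
  rw [tim_succ']
  nlinarith [rho_gt hs, tim_pos' s k]

lemma tim_le_of_le {s : ℝ} (hs : 0 < s) {k K : ℕ} (h : k ≤ K) : tim s k ≤ tim s K :=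
  monotone_nat_of_le_succ (tim_mono' hs) h

/-- geometric sums of `tim` -/
lemma geom_sums (s : ℝ) (hs : 0 < s) : ∃ c : ℝ, 0 < c ∧ ∀ K : ℕ,
    (∑ k ∈ range (K + 1), tim s k ≤ c * tim s K) ∧
    (∑ k ∈ range (K + 1), tim s k * (1 + ((K : ℝ) - (k : ℝ))) ≤ c * tim s K) := by
  set a : ℝ := (2 : ℝ) ^ (2 * s) with ha
  have ha1 : 1 < a := rho_gt hs
  -- c1 = a/(a-1), c2 = c1^2
  set c1 : ℝ := a / (a - 1) with hc1
  have h1 : 0 < a - 1 := by linarith
  have hc1' : 1 ≤ c1 := by rw [hc1, le_div_iff₀ h1]; linarith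
  have hrel : c1 + a = a * c1 := by
    rw [hc1]; field_simp; ring
  have hA : ∀ K : ℕ, ∑ k ∈ range (K + 1), tim s k ≤ c1 * tim s K := by
    intro K
    induction K with
    | zero => simp; nlinarith [tim_pos' s 0]
    | succ K ih =>
      rw [sum_range_succ, tim_succ', ← ha]
      have := tim_pos' s K
      nlinarith [mul_pos this h1, hrel]
  refine ⟨c1 ^ 2, by positivity, fun K => ⟨?_, ?_⟩⟩
  · have := hA K
    have h2 := tim_pos' s K
    nlinarith [mul_le_mul_of_nonneg_right hc1' h2.le, mul_nonneg (mul_nonneg (by linarith : (0:ℝ) ≤ c1) (by linarith : (0:ℝ) ≤ c1 - 1)) h2.le]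
  · induction K with
    | zero => simp; nlinarith [tim_pos' s 0, sq_nonneg (c1 - 1)]
    | succ K ih =>
      have e : ∑ k ∈ range (K + 1 + 1), tim s k * (1 + (((K + 1 : ℕ) : ℝ) - (k : ℝ)))
          = ∑ k ∈ range (K + 1), tim s k * (1 + ((K : ℝ) - (k : ℝ)))
            + ∑ k ∈ range (K + 1 + 1), tim s k := by
        rw [sum_range_succ, sum_range_succ _ (K + 1), ← add_assoc, ← sum_add_distrib]
        push_cast
        congr 1
        · apply sum_congr rfl; intro k _; ring
        · ring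
      rw [e]
      have h2 := hA (K + 1)
      rw [tim_succ', ← ha] at h2 ⊢
      have h3 := tim_pos' s K
      have h4 : c1 ^ 2 + a * c1 = a * c1 ^ 2 := by nlinarith only [hrel, hc1', hrel]
      nlinarith [mul_pos h3 h1]

/-- the discrete convolution with `2^{-j}` is bounded by `2` -/
lemma conv_sum (y : ℕ → ℝ) (K : ℕ) :
    ∑ k ∈ range (K + 1), ∑ j ∈ range (k + 1), (2 : ℝ) ^ j / 2 ^ k * y j
      + ∑ j ∈ range (K + 1), (2 : ℝ) ^ j / 2 ^ K * y j = 2 * ∑ j ∈ range (K + 1), y j := by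
  induction K with
  | zero => simp; ring
  | succ K ih =>
    have e : ∑ j ∈ range (K + 1 + 1), (2 : ℝ) ^ j / 2 ^ (K + 1) * y j
        = (1 / 2) * ∑ j ∈ range (K + 1), (2 : ℝ) ^ j / 2 ^ K * y j + y (K + 1) := by
      rw [sum_range_succ, mul_sum]
      congr 1
      · apply sum_congr rfl; intro j _; rw [pow_succ]; field_simp
      · rw [div_self (by positivity), one_mul]
    rw [sum_range_succ, e, sum_range_succ _ (K + 1)]
    linarith only [ih]

lemma conv_le {y : ℕ → ℝ} {K : ℕ} (hy : ∀ k ≤ K, 0 ≤ y k) :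
    ∑ k ∈ range (K + 1), ∑ j ∈ range (k + 1), (2 : ℝ) ^ j / 2 ^ k * y j
      ≤ 2 * ∑ j ∈ range (K + 1), y j := by
  have h := conv_sum y K
  have : 0 ≤ ∑ j ∈ range (K + 1), (2 : ℝ) ^ j / 2 ^ K * y j :=
    sum_nonneg fun j hj => mul_nonneg (by positivity) (hy j (by simpa [Nat.lt_succ_iff] using hj))
  linarith

lemma pow_sum (k : ℕ) : ∑ j ∈ range (k + 1), (2 : ℝ) ^ j / 2 ^ k ≤ 2 := by
  have : ∑ j ∈ range (k + 1), (2 : ℝ) ^ j / 2 ^ k = (2 ^ (k + 1) - 1) / 2 ^ k := by
    rw [← sum_div, geom_sum_eq (by norm_num)]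
    norm_num
  rw [this, div_le_iff₀ (by positivity), pow_succ]
  linarith

end KD.I.S1

namespace KD

open Finset I.S1

/-- real-sequence summation lemma.  `I,Ee,X,y` are time averages, `Dk` entropy differences. -/
theorem I.S1.sum_lemma (s C lam : ℝ) (hs : 0 < s) (hs1 : s < 1) (hC : 0 < C) (hlam : 0 < lam) :
    ∃ M C' : ℝ, 1 ≤ M ∧ 0 < C' ∧ ∀ (K : ℕ) (I Ee X y Dk : ℕ → ℝ) (η : ℝ),
    0 ≤ η → η * (K + 1) ≤ 1 →
    (∀ k ≤ K, 0 ≤ I k) → (∀ k ≤ K, 0 ≤ Ee k) → (∀ k ≤ K, 0 ≤ X k) → (∀ k ≤ K, 0 ≤ y k) →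
    (∀ k ≤ K, lam / 4 * I k ≤ Dk k + Ee k / (4 * lam)
        + C / M / tim s k * ∑ j ∈ range (k + 1), 2 ^ j / 2 ^ k * √(y j * X k) + η) →
    (∀ k ≤ K, Dk k ≤ C * (1 + (K - k))) →
    (y 0 ≤ C * tim s K) → (∀ k, k + 1 ≤ K → y (k + 1) ≤ C * tim s k * I k) →
    (X 0 ≤ C * tim s K) →
    (∀ k, k + 1 ≤ K → X (k + 1) ≤
        C * M * tim s k * (I k + Ee k + if k = 0 then 0 else I (k - 1) + Ee (k - 1))
          + C / M * X k + C / M * ∑ j ∈ range (k + 1), 2 ^ j / 2 ^ k * y j
          + C * √M * tim s k + η) →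
    (∑ k ∈ range (K + 1), tim s k * Ee k ≤ C * tim s K) →
    ∑ k ∈ range (K + 1), tim s k * I k + ∑ k ∈ range (K + 1), X k ≤ C' * tim s K := by
  obtain ⟨c, hc, hgeo⟩ := geom_sums s hs
  set q : ℝ := 1 + 2 * C + 8 * (11 * C ^ 2 + 4 * C ^ 3) / lam with hq
  have hq1 : 1 ≤ q := by
    have : 0 ≤ 8 * (11 * C ^ 2 + 4 * C ^ 3) / lam := by positivity
    linarith
  have hq2 : 1 + 2 * C ≤ q := by
    have : 0 ≤ 8 * (11 * C ^ 2 + 4 * C ^ 3) / lam := by positivity
    linarith
  have hq3 : 8 * (11 * C ^ 2 + 4 * C ^ 3) ≤ lam * q := by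
    have e : lam * (8 * (11 * C ^ 2 + 4 * C ^ 3) / lam) = 8 * (11 * C ^ 2 + 4 * C ^ 3) := by
      field_simp
    have e2 : lam * q = lam * (1 + 2 * C) + lam * (8 * (11 * C ^ 2 + 4 * C ^ 3) / lam) := by
      rw [hq]; ring
    rw [e2, e]
    have : 0 ≤ lam * (1 + 2 * C) := by positivity
    linarith
  have hq0 : 0 < q := by linarith
  have hM1 : 1 ≤ q ^ 2 := one_le_pow₀ hq1
  have hM2 : 2 * C ≤ q ^ 2 := by
    have := le_self_pow₀ hq1 two_ne_zero
    linarith
  -- constants
  set A0 : ℝ := C * c + C / (4 * lam) + 1 with hA0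
  set AX : ℝ := 2 * (C + 5 * C * q ^ 2 * C + 2 * C * C + C * q * c + 1) with hAX
  have hA0' : 0 < A0 := by positivity
  have hAX' : 0 < AX := by positivity
  set CS : ℝ := 8 / lam * (A0 + C * C + C * AX) with hCS
  have hCS' : 0 < CS := by positivity
  refine ⟨q ^ 2, CS + ((10 * C * q ^ 2 + 4 * C ^ 2) * CS + AX), hM1, by positivity, ?_⟩
  intro K I Ee X y Dk η hη hηK hI hE hX hy h1 hD hy0 hy1 hX0 hX1 hEs
  have hsq : √(q ^ 2) = q := Real.sqrt_sq hq0.le
  rw [hsq] at hX1
  set T : ℝ := tim s K with hT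
  have hT1 : 1 ≤ T := one_le_tim' hs K
  have hT0 : 0 < T := by linarith
  set S := ∑ k ∈ range (K + 1), tim s k * I k with hS
  set E := ∑ k ∈ range (K + 1), tim s k * Ee k with hE'
  set XX := ∑ k ∈ range (K + 1), X k with hXX
  set Y := ∑ j ∈ range (K + 1), y j with hY
  have hmem : ∀ {k}, k ∈ range (K + 1) → k ≤ K := fun {k} h => by
    simpa [Nat.lt_succ_iff] using h
  have hS0 : 0 ≤ S := sum_nonneg fun k hk => mul_nonneg (tim_pos' s k).le (hI k (hmem hk))
  have hE0 : 0 ≤ E := sum_nonneg fun k hk => mul_nonneg (tim_pos' s k).le (hE k (hmem hk))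
  have hXX0 : 0 ≤ XX := sum_nonneg fun k hk => hX k (hmem hk)
  have hY0 : 0 ≤ Y := sum_nonneg fun k hk => hy k (hmem hk)
  -- bound for Y
  have hYb : Y ≤ C * T + C * S := by
    have e : Y = ∑ k ∈ range K, y (k + 1) + y 0 := by rw [hY, sum_range_succ']
    have h2 : ∑ k ∈ range K, y (k + 1) ≤ ∑ k ∈ range K, C * (tim s k * I k) :=
      sum_le_sum fun k hk => by
        have := hy1 k (by simpa [Nat.succ_le_iff] using hk)
        linarith
    have h3 : ∑ k ∈ range K, C * (tim s k * I k) ≤ C * S := by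
      rw [← mul_sum]
      apply mul_le_mul_of_nonneg_left _ hC.le
      rw [hS, sum_range_succ]
      have := mul_nonneg (tim_pos' s K).le (hI K le_rfl)
      linarith
    linarith
  -- bound for X
  have hXb : XX ≤ C * T + 5 * C * q ^ 2 * (S + E) + C / q ^ 2 * XX + C / q ^ 2 * (2 * Y)
      + C * q * (c * T) + 1 := by
    have e : XX = ∑ k ∈ range K, X (k + 1) + X 0 := by rw [hXX, sum_range_succ']
    have hKmem : ∀ {k}, k ∈ range K → k + 1 ≤ K := fun {k} h => by
      simpa [Nat.succ_le_iff] using h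
    have h2 : ∑ k ∈ range K, X (k + 1) ≤ ∑ k ∈ range K,
        (C * q ^ 2 * tim s k * (I k + Ee k + if k = 0 then 0 else I (k - 1) + Ee (k - 1))
          + C / q ^ 2 * X k + C / q ^ 2 * ∑ j ∈ range (k + 1), 2 ^ j / 2 ^ k * y j
          + C * q * tim s k + η) := sum_le_sum fun k hk => hX1 k (hKmem hk)
    simp only [sum_add_distrib] at h2
    have b1 : ∑ k ∈ range K, C * q ^ 2 * tim s k * (I k + Ee k + if k = 0 then 0 else
        I (k - 1) + Ee (k - 1)) ≤ 5 * C * q ^ 2 * (S + E) := by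
      have f1 : ∑ k ∈ range K, tim s k * (I k + Ee k) ≤ S + E := by
        rw [hS, hE', ← sum_add_distrib, sum_range_succ]
        have g1 : ∑ k ∈ range K, tim s k * (I k + Ee k)
            = ∑ k ∈ range K, (tim s k * I k + tim s k * Ee k) :=
          sum_congr rfl fun k _ => by ring
        rw [g1]
        have g2 := mul_nonneg (tim_pos' s K).le (hI K le_rfl)
        have g3 := mul_nonneg (tim_pos' s K).le (hE K le_rfl)
        linarith
      have f2 : ∑ k ∈ range K, tim s k * (if k = 0 then 0 else I (k - 1) + Ee (k - 1))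
          ≤ 4 * (S + E) := by
        cases K with
        | zero => simp; linarith
        | succ K =>
          rw [sum_range_succ']
          simp only [if_true, mul_zero, add_zero]
          have g1 : ∑ k ∈ range K, tim s (k + 1) *
              (if k + 1 = 0 then 0 else I (k + 1 - 1) + Ee (k + 1 - 1))
              ≤ ∑ k ∈ range K, 4 * (tim s k * (I k + Ee k)) := by
            apply sum_le_sum
            intro k hk
            have hk' : k ≤ K + 1 := by have := mem_range.1 hk; omega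
            simp only [Nat.add_eq_zero_iff, one_ne_zero, and_false, if_false, Nat.add_sub_cancel]
            rw [tim_succ']
            have g2 := rho_le hs1
            have g3 := mul_nonneg (tim_pos' s k).le (add_nonneg (hI k hk') (hE k hk'))
            have g4 := mul_le_mul_of_nonneg_right g2 g3
            exact le_of_eq_of_le (by ring) g4
          have g4 : ∑ k ∈ range K, 4 * (tim s k * (I k + Ee k))
              ≤ 4 * ∑ k ∈ range (K + 1), tim s k * (I k + Ee k) := by
            rw [← mul_sum, sum_range_succ]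
            have g5 := mul_nonneg (tim_pos' s K).le
              (add_nonneg (hI K (by omega)) (hE K (by omega)))
            linarith
          linarith
      have f3 : ∑ k ∈ range K, C * q ^ 2 * tim s k * (I k + Ee k + if k = 0 then 0 else
          I (k - 1) + Ee (k - 1)) = C * q ^ 2 * (∑ k ∈ range K, tim s k * (I k + Ee k)
            + ∑ k ∈ range K, tim s k * (if k = 0 then 0 else I (k - 1) + Ee (k - 1))) := by
        rw [← sum_add_distrib, mul_sum]
        exact sum_congr rfl fun k _ => by ring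
      rw [f3]
      have f4 : 0 ≤ C * q ^ 2 := by positivity
      exact (mul_le_mul_of_nonneg_left (add_le_add f1 f2) f4).trans (le_of_eq (by ring))
    have b2 : ∑ k ∈ range K, C / q ^ 2 * X k ≤ C / q ^ 2 * XX := by
      rw [← mul_sum]
      apply mul_le_mul_of_nonneg_left _ (by positivity)
      rw [hXX, sum_range_succ]
      linarith [hX K le_rfl]
    have b3 : ∑ k ∈ range K, C / q ^ 2 * ∑ j ∈ range (k + 1), (2 : ℝ) ^ j / 2 ^ k * y j
        ≤ C / q ^ 2 * (2 * Y) := by
      rw [← mul_sum]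
      apply mul_le_mul_of_nonneg_left _ (by positivity)
      have g1 := conv_le hy
      rw [sum_range_succ] at g1
      have g2 : 0 ≤ ∑ j ∈ range (K + 1), (2 : ℝ) ^ j / 2 ^ K * y j :=
        sum_nonneg fun j hj => mul_nonneg (by positivity) (hy j (hmem hj))
      linarith
    have b4 : ∑ k ∈ range K, C * q * tim s k ≤ C * q * (c * T) := by
      rw [← mul_sum]
      apply mul_le_mul_of_nonneg_left _ (by positivity)
      have g1 := (hgeo K).1
      rw [sum_range_succ] at g1
      linarith [tim_pos' s K]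
    have b5 : ∑ k ∈ range K, η ≤ 1 := by
      rw [sum_const, card_range, nsmul_eq_mul]
      have e : (K : ℝ) * η = η * (K + 1) - η := by ring
      rw [e]
      exact (sub_le_self _ hη).trans hηK
    linarith
  have hXb2 : XX ≤ (10 * C * q ^ 2 + 4 * C ^ 2) * S + AX * T := by
    have g1 : C / q ^ 2 ≤ 1 / 2 := by
      rw [div_le_iff₀ (by positivity)]; linarith
    have g2 : C / q ^ 2 * XX ≤ 1 / 2 * XX := mul_le_mul_of_nonneg_right g1 hXX0
    have g3 : C / q ^ 2 * (2 * Y) ≤ C * (2 * (C * T + C * S)) := by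
      apply mul_le_mul _ (by linarith) (by linarith) hC.le
      exact div_le_self hC.le hM1
    have g4 : 5 * C * q ^ 2 * (S + E) ≤ 5 * C * q ^ 2 * (S + C * T) :=
      mul_le_mul_of_nonneg_left (by linarith) (by positivity)
    have g5 : XX ≤ 2 * (C * T + 5 * C * q ^ 2 * (S + C * T) + C * (2 * (C * T + C * S))
      + C * q * (c * T) + 1) := by linarith
    have g6 : 2 * (C * T + 5 * C * q ^ 2 * (S + C * T) + C * (2 * (C * T + C * S))
      + C * q * (c * T) + T) = (10 * C * q ^ 2 + 4 * C ^ 2) * S + AX * T := by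
      rw [hAX]; ring
    linarith
  -- the energy inequality
  have hSb : lam / 4 * S ≤ A0 * T + C / q ^ 2 * (q * Y + XX / q) := by
    have g1 : ∀ k ∈ range (K + 1), lam / 4 * (tim s k * I k) ≤ C * (tim s k * (1 + ((K : ℝ) - k)))
        + 1 / (4 * lam) * (tim s k * Ee k)
        + C / q ^ 2 * ∑ j ∈ range (k + 1), (2 : ℝ) ^ j / 2 ^ k * (q / 2 * y j + X k / q / 2)
        + η * T := by
      intro k hk
      have hkK := hmem hk
      have ht := tim_pos' s k
      have g2 := mul_le_mul_of_nonneg_left (h1 k hkK) ht.le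
      have g3 := mul_le_mul_of_nonneg_left (hD k hkK) ht.le
      have g4 : tim s k * (C / q ^ 2 / tim s k * ∑ j ∈ range (k + 1),
          (2 : ℝ) ^ j / 2 ^ k * √(y j * X k))
          = C / q ^ 2 * ∑ j ∈ range (k + 1), (2 : ℝ) ^ j / 2 ^ k * √(y j * X k) := by
        rw [← mul_assoc]
        congr 1
        field_simp
      have g5 : ∑ j ∈ range (k + 1), (2 : ℝ) ^ j / 2 ^ k * √(y j * X k)
          ≤ ∑ j ∈ range (k + 1), (2 : ℝ) ^ j / 2 ^ k * (q / 2 * y j + X k / q / 2) := by
        apply sum_le_sum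
        intro j hj
        have hjK : j ≤ K := by have := mem_range.1 hj; omega
        apply mul_le_mul_of_nonneg_left _ (by positivity)
        rw [Real.sqrt_le_left (by
          have := hy j hjK; have := hX k hkK; positivity)]
        have e1 : (q / 2 * y j + X k / q / 2) ^ 2
            = (q * y j - X k / q) ^ 2 / 4 + y j * X k := by field_simp; ring
        rw [e1]
        exact le_add_of_nonneg_left (div_nonneg (sq_nonneg _) (by norm_num))
      have g6 := mul_le_mul_of_nonneg_left g5 (by positivity : (0:ℝ) ≤ C / q ^ 2)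
      have g7 : η * tim s k ≤ η * T := mul_le_mul_of_nonneg_left (tim_le_of_le hs hkK) hη
      have g8 : tim s k * (Ee k / (4 * lam)) = 1 / (4 * lam) * (tim s k * Ee k) := by ring
      have g9 : tim s k * (Dk k + Ee k / (4 * lam) + C / q ^ 2 / tim s k * ∑ j ∈ range (k + 1),
          (2 : ℝ) ^ j / 2 ^ k * √(y j * X k) + η) = tim s k * Dk k + tim s k * (Ee k / (4 * lam))
          + tim s k * (C / q ^ 2 / tim s k * ∑ j ∈ range (k + 1),
          (2 : ℝ) ^ j / 2 ^ k * √(y j * X k)) + η * tim s k := by ring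
      rw [g9, g4, g8] at g2
      linarith
    have g2 := sum_le_sum g1
    simp only [sum_add_distrib, ← mul_sum] at g2
    rw [← hS, ← hE'] at g2
    have b1 := (hgeo K).2
    rw [← hT] at b1
    have b2 : 1 / (4 * lam) * E ≤ 1 / (4 * lam) * (C * T) :=
      mul_le_mul_of_nonneg_left hEs (by positivity)
    have b3 : ∑ k ∈ range (K + 1), ∑ j ∈ range (k + 1), (2 : ℝ) ^ j / 2 ^ k
        * (q / 2 * y j + X k / q / 2) ≤ q * Y + XX / q := by
      have e1 : ∀ k ∈ range (K + 1), ∑ j ∈ range (k + 1), (2 : ℝ) ^ j / 2 ^ k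
          * (q / 2 * y j + X k / q / 2)
          ≤ q / 2 * ∑ j ∈ range (k + 1), (2 : ℝ) ^ j / 2 ^ k * y j + X k / q := by
        intro k hk
        have e2 : ∑ j ∈ range (k + 1), (2 : ℝ) ^ j / 2 ^ k * (q / 2 * y j + X k / q / 2)
            = q / 2 * ∑ j ∈ range (k + 1), (2 : ℝ) ^ j / 2 ^ k * y j
              + (∑ j ∈ range (k + 1), (2 : ℝ) ^ j / 2 ^ k) * (X k / q / 2) := by
          rw [mul_sum, sum_mul, ← sum_add_distrib]
          exact sum_congr rfl fun j _ => by ring
        rw [e2]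
        have e3 : 0 ≤ X k / q / 2 := by have := hX k (hmem hk); positivity
        have e4 := mul_le_mul_of_nonneg_right (pow_sum k) e3
        linarith
      have e5 := sum_le_sum e1
      rw [sum_add_distrib, ← mul_sum, ← sum_div, ← hXX] at e5
      have e6 := conv_le hy
      rw [← hY] at e6
      have e7 := mul_le_mul_of_nonneg_left e6 (by positivity : (0:ℝ) ≤ q / 2)
      have e8 : q / 2 * (2 * Y) = q * Y := by ring
      rw [e8] at e7
      exact e5.trans (add_le_add_left e7 _)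
    have b4 : ∑ k ∈ range (K + 1), η * T ≤ T := by
      rw [sum_const, card_range, nsmul_eq_mul]
      push_cast
      have e := mul_le_mul_of_nonneg_right hηK hT0.le
      rw [one_mul] at e
      exact le_of_eq_of_le (by ring) e
    have b5 := mul_le_mul_of_nonneg_left b3 (by positivity : (0:ℝ) ≤ C / q ^ 2)
    have b6 := mul_le_mul_of_nonneg_left b1 hC.le
    have b7 : A0 * T = C * (c * T) + 1 / (4 * lam) * (C * T) + T := by rw [hA0]; ring
    rw [b7]
    simp only [sum_const, card_range, nsmul_eq_mul] at g2 b4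
    linarith only [b2, b5, b6, g2, b4]
  -- absorb
  have hfin : S ≤ CS * T := by
    have g1 : C / q ^ 2 * (q * Y + XX / q) ≤ C / q * (C * T + C * S)
        + C / q ^ 3 * ((10 * C * q ^ 2 + 4 * C ^ 2) * S + AX * T) := by
      have e1 : C / q ^ 2 * (q * Y + XX / q) = C / q * Y + C / q ^ 3 * XX := by
        field_simp
      rw [e1]
      have e2 := mul_le_mul_of_nonneg_left hYb (by positivity : (0:ℝ) ≤ C / q)
      have e3 := mul_le_mul_of_nonneg_left hXb2 (by positivity : (0:ℝ) ≤ C / q ^ 3)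
      linarith only [e2, e3]
    have g2 : C / q * (C * T + C * S) + C / q ^ 3 * ((10 * C * q ^ 2 + 4 * C ^ 2) * S + AX * T)
        ≤ (11 * C ^ 2 + 4 * C ^ 3) / q * S + (C * C + C * AX) * T := by
      have e1 : C / q * (C * T) ≤ C * C * T := by
        have := div_le_self hC.le hq1
        have e2 := mul_le_mul_of_nonneg_right this (by positivity : 0 ≤ C * T)
        linarith
      have e3 : C / q ^ 3 * (AX * T) ≤ C * AX * T := by
        have := div_le_self hC.le (one_le_pow₀ hq1 : 1 ≤ q ^ 3)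
        have e2 := mul_le_mul_of_nonneg_right this (by positivity : 0 ≤ AX * T)
        linarith only [e2]
      have e4 : C / q ^ 3 * (10 * C * q ^ 2 * S) = 10 * C ^ 2 / q * S := by field_simp
      have e5 : C / q ^ 3 * (4 * C ^ 2 * S) ≤ 4 * C ^ 3 / q * S := by
        have e6 : C / q ^ 3 * (4 * C ^ 2 * S) = 4 * C ^ 3 / q ^ 3 * S := by ring
        rw [e6]
        apply mul_le_mul_of_nonneg_right _ hS0
        apply div_le_div_of_nonneg_left (by positivity) hq0
        exact le_self_pow₀ hq1 (by norm_num)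
      have e7 : (11 * C ^ 2 + 4 * C ^ 3) / q * S = C / q * (C * S) + 10 * C ^ 2 / q * S
          + 4 * C ^ 3 / q * S := by ring
      rw [e7]
      linarith only [e1, e3, e4, e5]
    have g3 : (11 * C ^ 2 + 4 * C ^ 3) / q * S ≤ lam / 8 * S := by
      apply mul_le_mul_of_nonneg_right _ hS0
      rw [div_le_iff₀ hq0]
      linarith
    have g4 : lam / 8 * S ≤ (A0 + C * C + C * AX) * T := by linarith only [hSb, g1, g2, g3]
    have g5 : CS * T = 8 / lam * ((A0 + C * C + C * AX) * T) := by rw [hCS]; ring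
    rw [g5]
    have g6 := mul_le_mul_of_nonneg_left g4 (by positivity : (0:ℝ) ≤ 8 / lam)
    have g7 : 8 / lam * (lam / 8 * S) = S := by field_simp
    linarith
  have hfin2 : XX ≤ ((10 * C * q ^ 2 + 4 * C ^ 2) * CS + AX) * T := by
    have := mul_le_mul_of_nonneg_left hfin (by positivity : 0 ≤ 10 * C * q ^ 2 + 4 * C ^ 2)
    linarith
  linarith only [hfin, hfin2]

end KD
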