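import Pool.Agent.Helper37.KD.DefsC

/-! KD Part I, piece N3 : one-dimensional discrete Taylor estimate -/

namespace KD.I.N3

open Finset KD

/-- abstract discrete Taylor estimate along `ℕ` -/
lemma taylor_nat (h : ℕ → ℝ) (c D ρ : ℝ) (hD : 0 ≤ D) (hρ : 1 ≤ ρ) (hpos : ∀ m, 0 ≤ h m)
    (hlip : ∀ m, h (m + 1) ≤ ρ * h m)
    (h2 : ∀ m, |h (m + 2) + h m - 2 * h (m + 1)| ≤ D * h (m + 1))
    (h1 : |h 1 - h 0 - c| ≤ D / 2 * h 0) (n : ℕ) :
    |h n - h 0 - n * c| ≤ D * n ^ 2 * ρ ^ n * h 0 := by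
  have hρ0 : 0 < ρ := by linarith
  have hle : ∀ m, h m ≤ ρ ^ m * h 0 := by
    intro m
    induction m with
    | zero => simp
    | succ m ih =>
      calc h (m + 1) ≤ ρ * h m := hlip m
        _ ≤ ρ * (ρ ^ m * h 0) := mul_le_mul_of_nonneg_left ih hρ0.le
        _ = ρ ^ (m + 1) * h 0 := by ring
  have hd : ∀ m : ℕ, |h (m + 1) - h m - c| ≤ D * (m + 1 / 2) * ρ ^ m * h 0 := by
    intro m
    induction m with
    | zero =>
      simp only [zero_add, Nat.cast_zero, pow_zero, mul_one]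
      calc |h 1 - h 0 - c| ≤ D / 2 * h 0 := h1
        _ = D * (1 / 2) * h 0 := by ring
    | succ m ih =>
      have e : h (m + 1 + 1) - h (m + 1) - c
          = (h (m + 2) + h m - 2 * h (m + 1)) + (h (m + 1) - h m - c) := by ring
      rw [e]
      have a1 := abs_add_le (h (m + 2) + h m - 2 * h (m + 1)) (h (m + 1) - h m - c)
      have a2 := h2 m
      have a3 : D * h (m + 1) ≤ D * (ρ ^ (m + 1) * h 0) := mul_le_mul_of_nonneg_left (hle _) hD
      have a4 : D * (m + 1 / 2) * ρ ^ m * h 0 ≤ D * (m + 1 / 2) * ρ ^ (m + 1) * h 0 := by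
        apply mul_le_mul_of_nonneg_right _ (hpos 0)
        apply mul_le_mul_of_nonneg_left _ (by positivity)
        exact pow_le_pow_right₀ hρ (Nat.le_succ m)
      have a5 : D * (((m + 1 : ℕ) : ℝ) + 1 / 2) * ρ ^ (m + 1) * h 0
          = D * (ρ ^ (m + 1) * h 0) + D * (m + 1 / 2) * ρ ^ (m + 1) * h 0 := by
        push_cast; ring
      rw [a5]
      linarith
  induction n with
  | zero => simp
  | succ n ih =>
    have e : h (n + 1) - h 0 - ((n + 1 : ℕ) : ℝ) * c
        = (h n - h 0 - n * c) + (h (n + 1) - h n - c) := by push_cast; ring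
    rw [e]
    have a1 := abs_add_le (h n - h 0 - n * c) (h (n + 1) - h n - c)
    have a2 := hd n
    have a3 : D * (n : ℝ) ^ 2 * ρ ^ n * h 0 + D * (n + 1 / 2) * ρ ^ n * h 0
        ≤ D * ((n + 1 : ℕ) : ℝ) ^ 2 * ρ ^ (n + 1) * h 0 := by
      have b1 : D * (n : ℝ) ^ 2 * ρ ^ n * h 0 + D * (n + 1 / 2) * ρ ^ n * h 0
          = D * ((n : ℝ) ^ 2 + n + 1 / 2) * ρ ^ n * h 0 := by ring
      rw [b1]
      apply mul_le_mul_of_nonneg_right _ (hpos 0)
      apply mul_le_mul _ (pow_le_pow_right₀ hρ (Nat.le_succ n)) (by positivity) (by positivity)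
      apply mul_le_mul_of_nonneg_left _ hD
      push_cast
      nlinarith [(Nat.cast_nonneg n : (0:ℝ) ≤ n)]
    linarith

/-- Taylor estimate for an abstract positive log-Lipschitz kernel with small second differences -/
theorem taylor1 (C : ℝ) (hC : 0 < C) : ∃ C' : ℝ, 0 < C' ∧ ∀ (N : ℕ) [NeZero N] (R : ℝ)
    (f : ZMod N → ℝ), Odd N → 1 ≤ R → (∀ i, 0 < f i) →
    (∀ i j, f (i + j) ≤ Real.exp ((j.valMinAbs.natAbs : ℝ) / R) * f i) →
    (∀ i, |f (i + 1) + f (i - 1) - 2 * f i| ≤ C / R ^ 2 * f i) →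
    ∀ i y : ZMod N, |f i - f (i - y) - (y.valMinAbs : ℝ) / 2 * (f (i + 1) - f (i - 1))| ≤
      C' * ((y.valMinAbs.natAbs : ℝ) / R) ^ 2 * Real.exp (2 * (y.valMinAbs.natAbs : ℝ) / R) * f i := by
  refine ⟨C, hC, ?_⟩
  intro N _ R f _ hR hf hlip h2 i y
  have hR0 : 0 < R := by linarith
  -- one-step Lipschitz bounds
  have habs1 : ((1 : ZMod N).valMinAbs.natAbs : ℝ) ≤ 1 := by
    have h := ZMod.valMinAbs_natAbs_eq_min (1 : ZMod N)
    have h3 : (1 : ZMod N).val ≤ 1 := by
      rcases Nat.lt_or_ge 1 N with hN | hN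
      · haveI : Fact (1 < N) := ⟨hN⟩
        exact (ZMod.val_one N).le
      · have := ZMod.val_lt (1 : ZMod N)
        omega
    have h4 : (1 : ZMod N).valMinAbs.natAbs ≤ 1 := by rw [h]; exact (min_le_left _ _).trans h3
    exact_mod_cast h4
  have hneg : ((-1 : ZMod N).valMinAbs.natAbs : ℝ) = ((1 : ZMod N).valMinAbs.natAbs : ℝ) := by
    rw [ZMod.natAbs_valMinAbs_neg]
  have hexp : Real.exp (((1 : ZMod N).valMinAbs.natAbs : ℝ) / R) ≤ Real.exp (1 / R) :=
    Real.exp_le_exp.2 (div_le_div_of_nonneg_right habs1 hR0.le)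
  have hup : ∀ j, f (j + 1) ≤ Real.exp (1 / R) * f j := fun j =>
    (hlip j 1).trans (mul_le_mul_of_nonneg_right hexp (hf j).le)
  have hdn : ∀ j, f (j - 1) ≤ Real.exp (1 / R) * f j := fun j => by
    have := hlip j (-1)
    rw [hneg, ← sub_eq_add_neg] at this
    exact this.trans (mul_le_mul_of_nonneg_right hexp (hf j).le)
  have hρ : 1 ≤ Real.exp (1 / R) := Real.one_le_exp (by positivity)
  have hD : 0 ≤ C / R ^ 2 := by positivity
  -- final comparison
  have hfin : ∀ n : ℕ, C / R ^ 2 * (n : ℝ) ^ 2 * Real.exp (1 / R) ^ n * f i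
      ≤ C * ((n : ℝ) / R) ^ 2 * Real.exp (2 * (n : ℝ) / R) * f i := by
    intro n
    have e : Real.exp (1 / R) ^ n = Real.exp ((n : ℝ) / R) := by
      rw [← Real.exp_nat_mul]; congr 1; ring
    rw [e]
    apply mul_le_mul_of_nonneg_right _ (hf i).le
    have e2 : C / R ^ 2 * (n : ℝ) ^ 2 = C * ((n : ℝ) / R) ^ 2 := by field_simp
    rw [e2]
    apply mul_le_mul_of_nonneg_left _ (by positivity)
    apply Real.exp_le_exp.2
    apply div_le_div_of_nonneg_right _ hR0.le
    have := (Nat.cast_nonneg n : (0:ℝ) ≤ n)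
    linarith
  have hy : ((y.valMinAbs : ℤ) : ZMod N) = y := ZMod.coe_valMinAbs y
  rcases Int.natAbs_eq y.valMinAbs with hn | hn
  · -- nonnegative case
    set n := y.valMinAbs.natAbs with hndef
    have hy' : y = ((n : ℕ) : ZMod N) := by
      rw [← hy, hn]; simp
    have key := taylor_nat (fun m => f (i - (m : ZMod N))) (-(f (i + 1) - f (i - 1)) / 2)
      (C / R ^ 2) (Real.exp (1 / R)) hD hρ (fun m => (hf _).le)
      (fun m => by
        have := hdn (i - (m : ZMod N))
        have e : i - (m : ZMod N) - 1 = i - ((m + 1 : ℕ) : ZMod N) := by push_cast; ring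
        rw [e] at this
        exact this)
      (fun m => by
        have := h2 (i - ((m + 1 : ℕ) : ZMod N))
        have e1 : i - ((m + 1 : ℕ) : ZMod N) + 1 = i - (m : ZMod N) := by push_cast; ring
        have e2 : i - ((m + 1 : ℕ) : ZMod N) - 1 = i - ((m + 2 : ℕ) : ZMod N) := by push_cast; ring
        rw [e1, e2] at this
        have e3 : f (i - ((m + 2 : ℕ) : ZMod N)) + f (i - (m : ZMod N))
            = f (i - (m : ZMod N)) + f (i - ((m + 2 : ℕ) : ZMod N)) := add_comm _ _
        show |f (i - ((m + 2 : ℕ) : ZMod N)) + f (i - (m : ZMod N))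
          - 2 * f (i - ((m + 1 : ℕ) : ZMod N))| ≤ _
        rw [e3]
        exact this)
      (by
        simp only [Nat.cast_one, Nat.cast_zero, sub_zero]
        have e : f (i - 1) - f i - -(f (i + 1) - f (i - 1)) / 2
            = (f (i + 1) + f (i - 1) - 2 * f i) / 2 := by ring
        rw [e, abs_div, abs_of_pos (by norm_num : (0:ℝ) < 2)]
        have := h2 i
        linarith) n
    simp only [Nat.cast_zero, sub_zero] at key
    rw [← hy'] at key
    have e : f i - f (i - y) - (y.valMinAbs : ℝ) / 2 * (f (i + 1) - f (i - 1))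
        = -(f (i - y) - f i - (n : ℝ) * (-(f (i + 1) - f (i - 1)) / 2)) := by
      have : ((y.valMinAbs : ℤ) : ℝ) = (n : ℝ) := by rw [hn]; simp
      rw [this]; ring
    rw [e, abs_neg]
    exact key.trans (hfin n)
  · -- negative case
    set n := y.valMinAbs.natAbs with hndef
    have hy' : y = -((n : ℕ) : ZMod N) := by
      rw [← hy, hn]; simp
    have key := taylor_nat (fun m => f (i + (m : ZMod N))) ((f (i + 1) - f (i - 1)) / 2)
      (C / R ^ 2) (Real.exp (1 / R)) hD hρ (fun m => (hf _).le)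
      (fun m => by
        have := hup (i + (m : ZMod N))
        have e : i + (m : ZMod N) + 1 = i + ((m + 1 : ℕ) : ZMod N) := by push_cast; ring
        rw [e] at this
        exact this)
      (fun m => by
        have := h2 (i + ((m + 1 : ℕ) : ZMod N))
        have e1 : i + ((m + 1 : ℕ) : ZMod N) + 1 = i + ((m + 2 : ℕ) : ZMod N) := by push_cast; ring
        have e2 : i + ((m + 1 : ℕ) : ZMod N) - 1 = i + (m : ZMod N) := by push_cast; ring
        rw [e1, e2] at this
        exact this)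
      (by
        simp only [Nat.cast_one, Nat.cast_zero, add_zero]
        have e : f (i + 1) - f i - (f (i + 1) - f (i - 1)) / 2
            = (f (i + 1) + f (i - 1) - 2 * f i) / 2 := by ring
        rw [e, abs_div, abs_of_pos (by norm_num : (0:ℝ) < 2)]
        have := h2 i
        linarith) n
    simp only [Nat.cast_zero, add_zero] at key
    have e : f i - f (i - y) - (y.valMinAbs : ℝ) / 2 * (f (i + 1) - f (i - 1))
        = -(f (i + ((n : ℕ) : ZMod N)) - f i - (n : ℝ) * ((f (i + 1) - f (i - 1)) / 2)) := by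
      have h5 : ((y.valMinAbs : ℤ) : ℝ) = -(n : ℝ) := by rw [hn]; simp
      have h6 : i - y = i + ((n : ℕ) : ZMod N) := by rw [hy']; ring
      rw [h5, h6]; ring
    rw [e, abs_neg]
    exact key.trans (hfin n)

end KD.I.N3
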